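import Pool.Agent.H31.ST.Targets

/-!
# MP_0b97f5_mp : module CHRIS (traces of the Christoffel words)
-/

open Matrix

noncomputable section

namespace H31.ST

namespace CHRISaux

theorem ediv_eq {x m Q : ℤ} (hQ : 0 < Q) (h1 : m * Q ≤ x) (h2 : x < (m + 1) * Q) : x / Q = m :=
  le_antisymm (Int.lt_add_one_iff.1 (Int.ediv_lt_of_lt_mul hQ h2)) (Int.le_ediv_of_mul_le hQ h1)

theorem Tr_add (v : ℤ → ℝ) (E : ℝ) (n m : ℕ) :
    Tr v E (n + m) = Tr (fun j => v (j + n)) E m * Tr v E n := by
  induction m with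
  | zero => simp [Tr]
  | succ m ih =>
    rw [← add_assoc, Tr, ih, Tr, Matrix.mul_assoc]
    congr 3
    push_cast
    rw [add_comm]

theorem Tr_congr {v w : ℤ → ℝ} (E : ℝ) (n : ℕ) (h : ∀ j : ℕ, j < n → v j = w j) :
    Tr v E n = Tr w E n := by
  induction n with
  | zero => rfl
  | succ n ih =>
    rw [Tr, Tr, ih (fun j hj => h j (Nat.lt_succ_of_lt hj)), h n (Nat.lt_succ_self n)]

section mediant

variable {p q p' q' : ℕ} (hq : 0 < q) (hq' : 0 < q') (h : p' * q = p * q' + 1)
include hq hq' h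

theorem floor1 (j : ℤ) (hj0 : 0 ≤ j) (hj : j ≤ q) :
    j * ((p + p' : ℕ) : ℤ) / ((q + q' : ℕ) : ℤ) = j * p / q := by
  have hqz : (0 : ℤ) < q := by exact_mod_cast hq
  have hqz' : (0 : ℤ) < q' := by exact_mod_cast hq'
  have hz : (p' : ℤ) * q = p * q' + 1 := by exact_mod_cast h
  have hm1 : j * p / q * q ≤ j * p := Int.ediv_mul_le _ hqz.ne'
  have hm2 : j * p < (j * p / q + 1) * q := Int.lt_ediv_add_one_mul_self _ hqz
  set m := j * p / q with hm
  have hm3 : j * p + 1 ≤ (m + 1) * q := hm2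
  apply ediv_eq (by push_cast; linarith)
  · push_cast
    have h1 : m * q * (q + q') ≤ j * p * (q + q') :=
      mul_le_mul_of_nonneg_right hm1 (by linarith)
    have h2 : (m * (q + q')) * q ≤ (j * (p + p')) * (q : ℤ) := by
      have e1 : (j * (p + p')) * (q : ℤ) = j * p * (q + q') + j := by
        linear_combination j * hz
      rw [e1]
      have e2 : (m * ((q : ℤ) + q')) * q = m * q * (q + q') := by ring
      rw [e2]; linarith
    exact le_of_mul_le_mul_right h2 hqz
  · push_cast
    have h1 : (j * p + 1) * ((q : ℤ) + q') ≤ (m + 1) * q * (q + q') :=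
      mul_le_mul_of_nonneg_right hm3 (by linarith)
    have h2 : (j * (p + p')) * (q : ℤ) < ((m + 1) * (q + q')) * q := by
      have e1 : (j * (p + p')) * (q : ℤ) = j * p * (q + q') + j := by
        linear_combination j * hz
      rw [e1]
      have e2 : ((m + 1) * ((q : ℤ) + q')) * q = (m + 1) * q * (q + q') := by ring
      rw [e2]
      have e3 : (j * p + 1) * ((q : ℤ) + q') = j * p * (q + q') + (q + q') := by ring
      linarith
    exact lt_of_mul_lt_mul_right h2 hqz.le

theorem floor2 (i : ℤ) (hi0 : 0 ≤ i) (hi : i ≤ q') :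
    (i + q) * ((p + p' : ℕ) : ℤ) / ((q + q' : ℕ) : ℤ) = p + i * p' / q' := by
  have hqz : (0 : ℤ) < q := by exact_mod_cast hq
  have hqz' : (0 : ℤ) < q' := by exact_mod_cast hq'
  have hz : (p' : ℤ) * q = p * q' + 1 := by exact_mod_cast h
  have hm1 : i * p' / q' * q' ≤ i * p' := Int.ediv_mul_le _ hqz'.ne'
  have hm2 : i * p' < (i * p' / q' + 1) * q' := Int.lt_ediv_add_one_mul_self _ hqz'
  set m := i * p' / q' with hm
  have hm3 : i * p' + 1 ≤ (m + 1) * q' := hm2
  apply ediv_eq (by push_cast; linarith)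
  · push_cast
    have h1 : m * q' * (q + q') ≤ i * p' * (q + q') :=
      mul_le_mul_of_nonneg_right hm1 (by linarith)
    have h2 : ((p + m) * (q + q')) * q' ≤ ((i + q) * (p + p')) * (q' : ℤ) := by
      have e1 : ((i + q) * (p + p')) * (q' : ℤ)
          = p * (q + q') * q' + i * p' * (q + q') + (q' - i) := by
        linear_combination (q' - i) * hz
      rw [e1]
      have e2 : ((p + m) * ((q : ℤ) + q')) * q' = p * (q + q') * q' + m * q' * (q + q') := by ring
      rw [e2]; linarith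
    exact le_of_mul_le_mul_right h2 hqz'
  · push_cast
    have h1 : (i * p' + 1) * ((q : ℤ) + q') ≤ (m + 1) * q' * (q + q') :=
      mul_le_mul_of_nonneg_right hm3 (by linarith)
    have h2 : ((i + q) * (p + p')) * (q' : ℤ) < ((p + m + 1) * (q + q')) * q' := by
      have e1 : ((i + q) * (p + p')) * (q' : ℤ)
          = p * (q + q') * q' + i * p' * (q + q') + (q' - i) := by
        linear_combination (q' - i) * hz
      rw [e1]
      have e2 : ((p + m + 1) * ((q : ℤ) + q')) * q'
          = p * (q + q') * q' + (m + 1) * q' * (q + q') := by ring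
      rw [e2]
      have e3 : (i * p' + 1) * ((q : ℤ) + q') = i * p' * (q + q') + (q + q') := by ring
      linarith
    exact lt_of_mul_lt_mul_right h2 hqz'.le

theorem mediant (lam E : ℝ) :
    Tr (pper lam (p + p') (q + q')) E (q + q')
      = Tr (pper lam p' q') E q' * Tr (pper lam p q) E q := by
  rw [Tr_add]
  congr 1
  · apply Tr_congr
    intro j hj
    have hj' : (j : ℤ) + 1 ≤ q' := by exact_mod_cast hj
    have hj0 : (0 : ℤ) ≤ j := by positivity
    have e1 := floor2 hq hq' h (j : ℤ) hj0 (by linarith)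
    have e2 := floor2 hq hq' h ((j : ℤ) + 1) (by linarith) hj'
    simp only [pper]
    have e3 : ((j : ℤ) + q + 1) = ((j : ℤ) + 1 + q) := by ring
    rw [e3, e1, e2]
    congr 2
    ring
  · apply Tr_congr
    intro j hj
    have hj' : (j : ℤ) + 1 ≤ q := by exact_mod_cast hj
    have hj0 : (0 : ℤ) ≤ j := by positivity
    have e1 := floor1 hq hq' h (j : ℤ) hj0 (by linarith)
    have e2 := floor1 hq hq' h ((j : ℤ) + 1) (by linarith) hj'
    simp only [pper]
    rw [e1, e2]

end mediant

/-- iterated mediants towards the upper neighbour -/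
theorem iterA {p q p' q' : ℕ} (hq : 0 < q) (hq' : 0 < q') (h : p' * q = p * q' + 1) (lam E : ℝ)
    (k : ℕ) :
    Tr (pper lam (p + k * p') (q + k * q')) E (q + k * q')
      = Tr (pper lam p' q') E q' ^ k * Tr (pper lam p q) E q := by
  induction k with
  | zero => simp
  | succ k ih =>
    have h' : p' * (q + k * q') = (p + k * p') * q' + 1 := by
      have : p' * (q + k * q') = p' * q + k * p' * q' := by ring
      rw [this, h]; ring
    have := mediant (p := p + k * p') (q := q + k * q') (by omega) hq' h' lam E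
    have e1 : p + (k + 1) * p' = p + k * p' + p' := by ring
    have e2 : q + (k + 1) * q' = q + k * q' + q' := by ring
    rw [e1, e2, this, ih, pow_succ', Matrix.mul_assoc]

/-- iterated mediants towards the lower neighbour -/
theorem iterB {p q p' q' : ℕ} (hq : 0 < q) (hq' : 0 < q') (h : p' * q = p * q' + 1) (lam E : ℝ)
    (k : ℕ) :
    Tr (pper lam (p' + k * p) (q' + k * q)) E (q' + k * q)
      = Tr (pper lam p' q') E q' * Tr (pper lam p q) E q ^ k := by
  induction k with
  | zero => simp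
  | succ k ih =>
    have h' : (p' + k * p) * q = p * (q' + k * q) + 1 := by
      have : (p' + k * p) * q = p' * q + k * p * q := by ring
      rw [this, h]; ring
    have := mediant (p' := p' + k * p) (q' := q' + k * q) hq (by omega) h' lam E
    have e1 : p' + (k + 1) * p = p + (p' + k * p) := by ring
    have e2 : q' + (k + 1) * q = q + (q' + k * q) := by ring
    rw [e1, e2, this, ih, pow_succ, Matrix.mul_assoc]

theorem isUnit_Mm (lam : ℝ) (a : ℕ → ℕ) (E : ℝ) (n : ℕ) :
    IsUnit (Mm lam a E n) ∧ IsUnit (Mm lam a E (n + 1)) := by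
  induction n with
  | zero =>
    constructor
    · rw [Matrix.isUnit_iff_isUnit_det]
      simp [Mm, Matrix.det_fin_two]
    · rw [Matrix.isUnit_iff_isUnit_det]
      simp [Mm, Matrix.det_fin_two]
  | succ n ih =>
    refine ⟨ih.2, ?_⟩
    show IsUnit (Mm lam a E n * (Mm lam a E (n + 1)) ^ (a n))
    exact ih.1.mul (ih.2.pow _)

theorem qd_pos {a : ℕ → ℕ} (ha : ∀ k, 1 ≤ a k) (n : ℕ) : 0 < qd a (n + 1) ∧ 0 < qd a (n + 2) := by
  induction n with
  | zero =>
    constructor
    · simp [qd]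
    · have := ha 0
      simp only [qd]; omega
  | succ n ih =>
    refine ⟨ih.2, ?_⟩
    have h1 := ha (n + 1)
    show 0 < a (n + 1) * qd a (n + 2) + qd a (n + 1)
    have := ih.1
    omega

/-- the matrix of the Christoffel word of slope `pd a n / qd a n` -/
def Cn (lam : ℝ) (a : ℕ → ℕ) (E : ℝ) (n : ℕ) : Mat := Tr (pper lam (pd a n) (qd a n)) E (qd a n)

theorem base (lam : ℝ) (a : ℕ → ℕ) (ha : ∀ k, 1 ≤ a k) (E : ℝ) :
    Cn lam a E 1 = Mm lam a E 1 ∧ Cn lam a E 2 = Mm lam a E 2 := by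
  have c01 : Tr (pper lam 0 1) E 1 = !![E, -1; 1, 0] := by
    simp [Tr, pper]
  have c11 : Tr (pper lam 1 1) E 1 = !![E - lam, -1; 1, 0] := by
    simp [Tr, pper]
  constructor
  · exact c01
  · obtain ⟨k, hk⟩ : ∃ k, a 0 = k + 1 := ⟨a 0 - 1, by have := ha 0; omega⟩
    have h := iterB (p := 0) (q := 1) (p' := 1) (q' := 1) (by norm_num) (by norm_num) (by norm_num)
      lam E k
    have e1 : qd a 2 = 1 + k * 1 := by simp [qd, hk]; ring
    have e2 : pd a 2 = 1 + k * 0 := by simp [pd]
    rw [Cn, e1, e2, h, c01, c11]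
    show _ = !![1, -lam; 0, 1] * !![E, -1; 1, 0] ^ (a 0)
    rw [hk, pow_succ', ← Matrix.mul_assoc]
    congr 1
    ext i j
    fin_cases i <;> fin_cases j <;> simp [Matrix.mul_apply, Fin.sum_univ_two]
    ring

theorem main (lam : ℝ) (a : ℕ → ℕ) (ha : ∀ k, 1 ≤ a k) (E : ℝ) (n : ℕ) :
    (pd a (n + 2) * qd a (n + 1) = pd a (n + 1) * qd a (n + 2) + 1 ∨
      pd a (n + 1) * qd a (n + 2) = pd a (n + 2) * qd a (n + 1) + 1) ∧
    ∃ g U1 U2 : Matˣ, (U1 : Mat) = Mm lam a E (n + 1) ∧ (U2 : Mat) = Mm lam a E (n + 2) ∧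
      Cn lam a E (n + 1) = ((g * U1 * g⁻¹ : Matˣ) : Mat) ∧
      Cn lam a E (n + 2) = ((g * U2 * g⁻¹ : Matˣ) : Mat) := by
  induction n with
  | zero =>
    obtain ⟨U1, hU1⟩ := (isUnit_Mm lam a E 0).2
    obtain ⟨U2, hU2⟩ := (isUnit_Mm lam a E 1).2
    refine ⟨Or.inl (by simp [pd, qd]), 1, U1, U2, hU1, hU2, ?_, ?_⟩
    · rw [one_mul, inv_one, mul_one, hU1]; exact (base lam a ha E).1
    · rw [one_mul, inv_one, mul_one, hU2]; exact (base lam a ha E).2
  | succ n ih =>
    obtain ⟨hfar, g, U1, U2, hU1, hU2, hg1, hg2⟩ := ih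
    have hq := qd_pos ha n
    have ep : pd a (n + 3) = pd a (n + 1) + a (n + 1) * pd a (n + 2) := by
      show a (n + 1) * pd a (n + 2) + pd a (n + 1) = _
      ring
    have eq' : qd a (n + 3) = qd a (n + 1) + a (n + 1) * qd a (n + 2) := by
      show a (n + 1) * qd a (n + 2) + qd a (n + 1) = _
      ring
    have eM : Mm lam a E (n + 3) = Mm lam a E (n + 1) * (Mm lam a E (n + 2)) ^ (a (n + 1)) := rfl
    have hU3 : ((U1 * U2 ^ (a (n + 1)) : Matˣ) : Mat) = Mm lam a E (n + 3) := by
      rw [eM, Units.val_mul, Units.val_pow_eq_pow_val, hU1, hU2]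
    rcases hfar with hA | hB
    · have hC : Cn lam a E (n + 3) = Cn lam a E (n + 2) ^ (a (n + 1)) * Cn lam a E (n + 1) := by
        have := iterA hq.1 hq.2 hA lam E (a (n + 1))
        rw [Cn, ep, eq', this]; rfl
      refine ⟨Or.inr ?_, g * U2 ^ (a (n + 1)), U2, U1 * U2 ^ (a (n + 1)), hU2, hU3, ?_, ?_⟩
      · show pd a (n + 2) * qd a (n + 3) = pd a (n + 3) * qd a (n + 2) + 1
        rw [ep, eq']
        calc pd a (n + 2) * (qd a (n + 1) + a (n + 1) * qd a (n + 2))
            = pd a (n + 2) * qd a (n + 1) + a (n + 1) * pd a (n + 2) * qd a (n + 2) := by ring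
          _ = _ := by rw [hA]; ring
      · show Cn lam a E (n + 2) = _
        rw [hg2]
        congr 1
        group
      · show Cn lam a E (n + 3) = _
        rw [hC, hg2, hg1, ← Units.val_pow_eq_pow_val, ← Units.val_mul, conj_pow]
        congr 1
        group
    · have hC : Cn lam a E (n + 3) = Cn lam a E (n + 1) * Cn lam a E (n + 2) ^ (a (n + 1)) := by
        have := iterB hq.2 hq.1 hB lam E (a (n + 1))
        rw [Cn, ep, eq', this]; rfl
      refine ⟨Or.inl ?_, g, U2, U1 * U2 ^ (a (n + 1)), hU2, hU3, hg2, ?_⟩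
      · show pd a (n + 3) * qd a (n + 2) = pd a (n + 2) * qd a (n + 3) + 1
        rw [ep, eq']
        calc (pd a (n + 1) + a (n + 1) * pd a (n + 2)) * qd a (n + 2)
            = pd a (n + 1) * qd a (n + 2) + a (n + 1) * pd a (n + 2) * qd a (n + 2) := by ring
          _ = _ := by rw [hB]; ring
      · show Cn lam a E (n + 3) = _
        rw [hC, hg2, hg1, ← Units.val_pow_eq_pow_val, ← Units.val_mul, conj_pow]
        congr 1
        group

end CHRISaux

open CHRISaux in
theorem chris : T_CHRIS := by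
  intro lam a ha E n hn
  obtain ⟨m, rfl⟩ : ∃ m, n = m + 1 := ⟨n - 1, by omega⟩
  obtain ⟨_, g, U1, U2, hU1, _, hg, _⟩ := main lam a ha E m
  show (Mm lam a E (m + 1)).trace = (Cn lam a E (m + 1)).trace
  rw [hg, Units.val_mul, Units.val_mul, Matrix.trace_units_conj, hU1]

end H31.ST
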