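import Pool.Agent.H31.ST.Targets

/-!
# MP_0b97f5_mp : module SPEC2
-/

open Set

noncomputable section

namespace H31.ST

namespace SPEC2aux

theorem norm_sq (f : L2Z) : ‖f‖ ^ 2 = ∑' i, ‖f i‖ ^ 2 := by
  have h := lp.norm_rpow_eq_tsum (p := 2) (E := fun _ : ℤ => ℂ) (by norm_num) f
  norm_num at h
  exact h

theorem norm_sq_eq_sum (f : L2Z) (s : Finset ℤ) (hs : ∀ i, i ∉ s → f i = 0) :
    ‖f‖ ^ 2 = ∑ i ∈ s, ‖f i‖ ^ 2 := by
  rw [norm_sq]
  apply tsum_eq_sum
  intro i hi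
  rw [hs i hi]; simp

/-- a finitely supported element -/
def mk (f : ℤ → ℂ) (s : Finset ℤ) (hs : ∀ i, i ∉ s → f i = 0) : L2Z :=
  ⟨f, by
    apply memℓp_gen
    apply summable_of_ne_finset_zero (s := s)
    intro i hi
    rw [hs i hi]
    norm_num⟩

theorem mk_apply (f : ℤ → ℂ) (s : Finset ℤ) (hs : ∀ i, i ∉ s → f i = 0) (i : ℤ) :
    (mk f s hs : ℤ → ℂ) i = f i := rfl

/-- period sums do not depend on the start -/
theorem period_sum (w : ℤ → ℝ) (q : ℕ) (hw : ∀ j, w (j + q) = w j) (a : ℤ) :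
    ∑ j ∈ Finset.Ico a (a + q), w j = ∑ j ∈ Finset.Ico (0 : ℤ) q, w j := by
  have step : ∀ a : ℤ, ∑ j ∈ Finset.Ico (a + 1) (a + 1 + q), w j
      = ∑ j ∈ Finset.Ico a (a + q), w j := by
    intro a
    rcases Nat.eq_zero_or_pos q with h0 | hq
    · subst h0; simp
    · have hqz : (0 : ℤ) < q := by exact_mod_cast hq
      have e1 : Finset.Ico a (a + q) = insert a (Finset.Ico (a + 1) (a + q)) := by
        ext x; simp only [Finset.mem_Ico, Finset.mem_insert]; omega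
      have e2 : Finset.Ico (a + 1) (a + 1 + q) = insert (a + q) (Finset.Ico (a + 1) (a + q)) := by
        ext x; simp only [Finset.mem_Ico, Finset.mem_insert]; omega
      rw [e1, e2, Finset.sum_insert (by simp), Finset.sum_insert (by simp), hw]
  induction a using Int.induction_on with
  | zero => simp
  | succ i ih => rw [step]; exact ih
  | pred i ih =>
    have := step (-(i : ℤ) - 1)
    rw [sub_add_cancel] at this
    rw [← this]; exact ih

theorem sum_Ico_add (w : ℤ → ℝ) (a b c : ℤ) (h1 : a ≤ b) (h2 : b ≤ c) :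
    ∑ j ∈ Finset.Ico a c, w j = ∑ j ∈ Finset.Ico a b, w j + ∑ j ∈ Finset.Ico b c, w j := by
  rw [← Finset.sum_union]
  · congr 1
    ext x; simp only [Finset.mem_Ico, Finset.mem_union]; omega
  · rw [Finset.disjoint_left]
    intro x; simp only [Finset.mem_Ico]; omega

theorem pper_periodic (lam : ℝ) (p q : ℕ) (hq : 0 < q) (j : ℤ) :
    pper lam p q (j + q) = pper lam p q j := by
  have hqz : (q : ℤ) ≠ 0 := by exact_mod_cast hq.ne'
  simp only [pper]
  have e1 : (j + q + 1) * (p : ℤ) = (j + 1) * p + p * q := by ring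
  have e2 : (j + q) * (p : ℤ) = j * p + p * q := by ring
  rw [e1, e2, Int.add_mul_ediv_right _ _ hqz, Int.add_mul_ediv_right _ _ hqz]
  congr 2
  ring

/-- the tent -/
def tent (q : ℕ) (c j : ℤ) : ℝ := max 0 (1 - |((j - c : ℤ) : ℝ)| / q)

theorem tent_zero {q : ℕ} (hq : 0 < q) {c j : ℤ} (h : (q : ℤ) ≤ |j - c|) : tent q c j = 0 := by
  have hqr : (0 : ℝ) < q := by exact_mod_cast hq
  apply max_eq_left
  have : ((q : ℤ) : ℝ) ≤ ((|j - c| : ℤ) : ℝ) := by exact_mod_cast h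
  rw [Int.cast_abs] at this
  push_cast at this ⊢
  rw [sub_nonpos, le_div_iff₀ hqr]
  linarith

theorem tent_nonneg (q : ℕ) (c j : ℤ) : 0 ≤ tent q c j := le_max_left _ _

theorem tent_half {q : ℕ} (hq : 0 < q) {c j : ℤ} (h : 2 * |j - c| ≤ q) : 1 / 2 ≤ tent q c j := by
  have hqr : (0 : ℝ) < q := by exact_mod_cast hq
  refine le_trans ?_ (le_max_right _ _)
  have : ((2 * |j - c| : ℤ) : ℝ) ≤ ((q : ℤ) : ℝ) := by exact_mod_cast h
  push_cast at this ⊢
  have h2 : |(j : ℝ) - c| / q ≤ 1 / 2 := by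
    rw [div_le_iff₀ hqr]; linarith
  linarith

theorem tent_step {q : ℕ} (hq : 0 < q) (c j : ℤ) : |tent q c (j + 1) - tent q c j| ≤ 1 / q := by
  have hqr : (0 : ℝ) < q := by exact_mod_cast hq
  unfold tent
  have h1 := abs_max_sub_max_le_max (0 : ℝ) (1 - |((j + 1 - c : ℤ) : ℝ)| / q) 0
    (1 - |((j - c : ℤ) : ℝ)| / q)
  refine h1.trans ?_
  rw [sub_self, abs_zero]
  apply max_le (by positivity)
  have e : (1 - |((j + 1 - c : ℤ) : ℝ)| / q) - (1 - |((j - c : ℤ) : ℝ)| / q)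
      = (|((j - c : ℤ) : ℝ)| - |((j + 1 - c : ℤ) : ℝ)|) / q := by ring
  rw [e, abs_div, abs_of_pos hqr]
  apply div_le_div_of_nonneg_right _ hqr.le
  refine (abs_abs_sub_abs_le _ _).trans ?_
  push_cast
  have : (j : ℝ) - c - (j + 1 - c) = -1 := by ring
  rw [this]; norm_num

theorem psum (w : ℤ → ℝ) (q : ℕ) (hw : ∀ j, w (j + q) = w j) (a d : ℤ) (m : ℕ) :
    ∑ i ∈ Finset.Ico a (a + m * q), w (i + d) = m * ∑ j ∈ Finset.Ico (0 : ℤ) q, w j := by
  induction m with
  | zero => simp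
  | succ m ih =>
    have hq0 : (0 : ℤ) ≤ q := Int.natCast_nonneg q
    have hm0 : (0 : ℤ) ≤ m * q := by positivity
    rw [sum_Ico_add _ a (a + m * q) (a + ((m + 1 : ℕ) : ℤ) * q) (by linarith)
      (by push_cast; linarith), ih]
    have e : a + ((m + 1 : ℕ) : ℤ) * q = a + m * q + q := by push_cast; ring
    rw [e, period_sum (fun i => w (i + d)) q (by
      intro j
      show w (j + q + d) = w (j + d)
      have : j + q + d = j + d + q := by ring
      rw [this, hw])]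
    have h2 := period_sum w q hw d
    have h3 : ∑ j ∈ Finset.Ico (0 : ℤ) q, w (j + d) = ∑ j ∈ Finset.Ico d (d + q), w j := by
      rw [Finset.sum_Ico_add' w 0 (q : ℤ) d]
      congr 1
      rw [zero_add, add_comm]
    rw [h3, h2]
    push_cast; ring

end SPEC2aux

open SPEC2aux in
theorem spec2 (hDIG : T_DIG) (hCHRIS : T_CHRIS) (hCONV : T_CONV) (hWIN2 : T_WIN2)
    (hBLOCH : T_BLOCH) : T_SPEC2 := by
  intro lam _ α hα hirr ω H hH E hE
  rw [spectrum.mem_iff]
  intro hunit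
  obtain ⟨U, hU⟩ := hunit
  set a := dig α with ha
  have ha1 : ∀ k, 1 ≤ a k := (hDIG.2.2 α hα hirr).2.2.1
  set K : ℝ := ‖((↑U⁻¹ : L2Z →L[ℂ] L2Z))‖ with hK
  have hK0 : 0 ≤ K := norm_nonneg _
  have hlow : ∀ ψ : L2Z, ‖ψ‖ ≤ K * ‖(algebraMap ℂ (L2Z →L[ℂ] L2Z) (E : ℂ) - H) ψ‖ := by
    intro ψ
    have h1 : (↑U⁻¹ : L2Z →L[ℂ] L2Z) ((U : L2Z →L[ℂ] L2Z) ψ) = ψ := by
      rw [← mul_apply_eq_comp, Units.inv_mul]; rfl
    rw [← hU]
    calc ‖ψ‖ = ‖(↑U⁻¹ : L2Z →L[ℂ] L2Z) ((U : L2Z →L[ℂ] L2Z) ψ)‖ := by rw [h1]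
      _ ≤ _ := ContinuousLinearMap.le_opNorm _ _
  -- choice of the level
  obtain ⟨N, hN⟩ := exists_nat_gt (48 * K ^ 2)
  have hN0 : (0 : ℝ) < N := lt_of_le_of_lt (by positivity) hN
  have hN1 : 1 ≤ N := by exact_mod_cast hN0
  obtain ⟨n, hn1, hxn⟩ : ∃ n, N + 1 ≤ n ∧ |xt lam a n E| ≤ 2 := by
    rcases hE (N + 1) with h | h
    · exact ⟨N + 1, le_rfl, h⟩
    · exact ⟨N + 2, by omega, h⟩
  set q := qd a n with hq
  set p := pd a n with hp
  obtain ⟨hq0, hc, happ, hqq, _⟩ := hCONV α hα hirr n (by omega)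
  replace hq0 : 0 < q := hq0
  replace hc : Nat.Coprime p q := hc
  have hqN : N ≤ q := by
    obtain ⟨_, _, _, _, h⟩ := hCONV α hα hirr (n - 1) (by omega)
    rw [Nat.sub_add_cancel (by omega)] at h
    have : n - 1 ≤ q := h
    omega
  have hqr : (0 : ℝ) < q := by exact_mod_cast hq0
  have happ' : |α * q - p| * q < 1 := by
    have h1 : (q : ℝ) ≤ qd a (n + 1) := by exact_mod_cast hqq
    have h2 : 1 / (qd a (n + 1) : ℝ) ≤ 1 / q := one_div_le_one_div_of_le hqr h1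
    have h3 : |α * q - p| < 1 / q := lt_of_lt_of_le happ h2
    rw [lt_div_iff₀ hqr] at h3
    exact h3
  set v : ℤ → ℝ := pper lam p q with hv
  have htr : |(Tr v E q).trace| ≤ 2 := by
    rw [← hCHRIS lam a ha1 E n (by omega)]; exact hxn
  obtain ⟨u, ⟨j1, hj1⟩, hu, hup⟩ := hBLOCH v q E hq0 (pper_periodic lam p q hq0) htr
  obtain ⟨k, j₀, hwin⟩ := hWIN2 lam α ω hα hirr p q hq0 hc happ'
  set c : ℤ := j₀ + (q - 1) with hcdef
  have hqz : (0 : ℤ) < q := by exact_mod_cast hq0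
  let w : ℤ → ℝ := fun j => ‖u j‖ ^ 2
  have hw : ∀ j, w (j + q) = w j := by
    intro j
    show ‖u (j + q)‖ ^ 2 = ‖u j‖ ^ 2
    rw [hup]
  set Sm : ℝ := ∑ j ∈ Finset.Ico (0 : ℤ) q, w j with hSm
  have hSpos : 0 < Sm := by
    have h1 := period_sum w q hw j1
    rw [hSm, ← h1]
    have h2 : w j1 ≤ ∑ j ∈ Finset.Ico j1 (j1 + q), w j :=
      Finset.single_le_sum (f := w) (fun j _ => by positivity) (by simp [hq0])
    have h3 : 0 < w j1 := by
      have : 0 < ‖u j1‖ := norm_pos_iff.2 hj1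
      positivity
    linarith
  -- the test function
  set s0 : Finset ℤ := Finset.Ico (k + c - q) (k + c - q + ((3 : ℕ) : ℤ) * q) with hs0
  have hsupp : ∀ i, i ∉ s0 → ((tent q c (i - k) : ℝ) : ℂ) * u (i - k) = 0 := by
    intro i hi
    have : tent q c (i - k) = 0 := by
      apply tent_zero hq0
      by_contra hcon
      push Not at hcon
      rw [abs_lt] at hcon
      apply hi
      rw [hs0, Finset.mem_Ico]
      push_cast
      constructor <;> linarith
    rw [this]; simp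
  set ψ : L2Z := mk (fun i => ((tent q c (i - k) : ℝ) : ℂ) * u (i - k)) s0 hsupp with hψ
  have hψi : ∀ i, (ψ : ℤ → ℂ) i = ((tent q c (i - k) : ℝ) : ℂ) * u (i - k) := fun i => rfl
  -- lower bound of the norm
  have hlow2 : Sm / 4 ≤ ‖ψ‖ ^ 2 := by
    rw [norm_sq_eq_sum ψ s0 (fun i hi => by rw [hψi]; exact hsupp i hi)]
    set h : ℤ := (q : ℤ) / 2 with hh
    have hsub : Finset.Ico (k + c - h) (k + c - h + ((1 : ℕ) : ℤ) * q) ⊆ s0 := by
      intro i hi
      rw [Finset.mem_Ico] at hi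
      rw [hs0, Finset.mem_Ico]
      push_cast at hi ⊢
      constructor <;> omega
    have h1 : ∑ i ∈ Finset.Ico (k + c - h) (k + c - h + ((1 : ℕ) : ℤ) * q), ‖(ψ : ℤ → ℂ) i‖ ^ 2
        ≤ ∑ i ∈ s0, ‖(ψ : ℤ → ℂ) i‖ ^ 2 :=
      Finset.sum_le_sum_of_subset_of_nonneg hsub (fun i _ _ => by positivity)
    refine le_trans ?_ h1
    have h2 := psum w q hw (k + c - h) (-k) 1
    have h3 : Sm / 4 = ∑ i ∈ Finset.Ico (k + c - h) (k + c - h + ((1 : ℕ) : ℤ) * q),
        (1 / 4) * w (i + -k) := by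
      rw [← Finset.mul_sum, h2, ← hSm]; push_cast; ring
    rw [h3]
    apply Finset.sum_le_sum
    intro i hi
    rw [Finset.mem_Ico] at hi
    push_cast at hi
    have ht : 1 / 2 ≤ tent q c (i - k) := by
      apply tent_half hq0
      have : |i - k - c| ≤ h := by
        rw [abs_le]; constructor <;> omega
      omega
    rw [hψi, norm_mul, Complex.norm_real, Real.norm_of_nonneg (tent_nonneg _ _ _), mul_pow]
    show 1 / 4 * ‖u (i + -k)‖ ^ 2 ≤ _
    rw [← sub_eq_add_neg]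
    apply mul_le_mul_of_nonneg_right _ (by positivity)
    nlinarith
  -- upper bound
  set χ : L2Z := (algebraMap ℂ (L2Z →L[ℂ] L2Z) (E : ℂ) - H) ψ with hχ
  have hχi : ∀ i, (χ : ℤ → ℂ) i =
      -(((tent q c (i - k + 1) - tent q c (i - k) : ℝ) : ℂ) * u (i - k + 1)
        + ((tent q c (i - k - 1) - tent q c (i - k) : ℝ) : ℂ) * u (i - k - 1)) := by
    intro i
    have h1 : (χ : ℤ → ℂ) i = (E : ℂ) * (ψ : ℤ → ℂ) i - (H ψ : ℤ → ℂ) i := by
      rfl
    rw [h1, hH ψ i, hψi, hψi, hψi]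
    have e1 : i + 1 - k = i - k + 1 := by ring
    have e2 : i - 1 - k = i - k - 1 := by ring
    rw [e1, e2]
    set j := i - k with hj
    have huj := hu j
    -- the potentials agree where the tent does not vanish
    have hpot : ((pot lam α ω i : ℝ) : ℂ) * (((tent q c j : ℝ) : ℂ) * u j)
        = ((v j : ℝ) : ℂ) * (((tent q c j : ℝ) : ℂ) * u j) := by
      by_cases hjw : j₀ ≤ j ∧ j < j₀ + (2 * q - 1)
      · have := hwin j hjw.1 hjw.2
        have e3 : k + j = i := by rw [hj]; ring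
        rw [e3] at this
        rw [this]
      · have : tent q c j = 0 := by
          apply tent_zero hq0
          by_contra hcon
          push Not at hcon
          rw [abs_lt] at hcon
          apply hjw
          constructor <;> omega
        rw [this]; simp
    rw [hpot]
    have huj' : (v j : ℂ) * u j = E * u j - u (j + 1) - u (j - 1) := by
      rw [← huj]; ring
    push_cast
    linear_combination (-(tent q c j : ℂ)) * huj'
  have hsupχ : ∀ i, i ∉ s0 → (χ : ℤ → ℂ) i = 0 := by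
    intro i hi
    rw [hs0, Finset.mem_Ico] at hi
    push_cast at hi
    have hz : ∀ j, j = i - k ∨ j = i - k + 1 ∨ j = i - k - 1 → tent q c j = 0 := by
      intro j hj
      apply tent_zero hq0
      by_contra hcon
      push Not at hcon
      rw [abs_lt] at hcon
      apply hi
      constructor <;> omega
    rw [hχi, hz _ (Or.inl rfl), hz _ (Or.inr (Or.inl rfl)), hz _ (Or.inr (Or.inr rfl))]
    simp
  have hup2 : ‖χ‖ ^ 2 ≤ 12 * Sm / q ^ 2 := by
    rw [norm_sq_eq_sum χ s0 hsupχ]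
    have h1 : ∀ i ∈ s0, ‖(χ : ℤ → ℂ) i‖ ^ 2 ≤ (2 / q ^ 2) * (w (i + (-k + 1)) + w (i + (-k - 1))) := by
      intro i _
      rw [hχi, norm_neg]
      have n1 : ‖((tent q c (i - k + 1) - tent q c (i - k) : ℝ) : ℂ) * u (i - k + 1)‖
          ≤ 1 / q * ‖u (i - k + 1)‖ := by
        rw [norm_mul, Complex.norm_real, Real.norm_eq_abs]
        exact mul_le_mul_of_nonneg_right (tent_step hq0 c (i - k)) (norm_nonneg _)
      have n2 : ‖((tent q c (i - k - 1) - tent q c (i - k) : ℝ) : ℂ) * u (i - k - 1)‖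
          ≤ 1 / q * ‖u (i - k - 1)‖ := by
        rw [norm_mul, Complex.norm_real, Real.norm_eq_abs]
        apply mul_le_mul_of_nonneg_right _ (norm_nonneg _)
        have := tent_step hq0 c (i - k - 1)
        rw [sub_add_cancel, abs_sub_comm] at this
        exact this
      have n3 := (norm_add_le (((tent q c (i - k + 1) - tent q c (i - k) : ℝ) : ℂ) * u (i - k + 1))
        (((tent q c (i - k - 1) - tent q c (i - k) : ℝ) : ℂ) * u (i - k - 1))).trans
        (add_le_add n1 n2)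
      have n4 := pow_le_pow_left₀ (norm_nonneg _) n3 2
      refine n4.trans ?_
      have e1 : i + (-k + 1) = i - k + 1 := by ring
      have e2 : i + (-k - 1) = i - k - 1 := by ring
      show _ ≤ (2 / (q : ℝ) ^ 2) * (‖u (i + (-k + 1))‖ ^ 2 + ‖u (i + (-k - 1))‖ ^ 2)
      rw [e1, e2]
      set A := ‖u (i - k + 1)‖
      set B := ‖u (i - k - 1)‖
      have e3 : (1 / (q : ℝ) * A + 1 / q * B) ^ 2 = (A + B) ^ 2 / q ^ 2 := by
        field_simp
      rw [e3, div_mul_eq_mul_div]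
      apply div_le_div_of_nonneg_right _ (by positivity)
      nlinarith [sq_nonneg (A - B)]
    refine (Finset.sum_le_sum h1).trans ?_
    rw [← Finset.mul_sum, Finset.sum_add_distrib, hs0, psum w q hw, psum w q hw, ← hSm]
    apply le_of_eq
    push_cast
    ring
  have hfin := hlow ψ
  have h5 : ‖ψ‖ ^ 2 ≤ K ^ 2 * ‖χ‖ ^ 2 := by
    rw [← mul_pow]
    exact pow_le_pow_left₀ (norm_nonneg _) hfin 2
  have h6 : Sm / 4 ≤ K ^ 2 * (12 * Sm / q ^ 2) :=
    hlow2.trans (h5.trans (mul_le_mul_of_nonneg_left hup2 (by positivity)))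
  have h7 : (q : ℝ) ^ 2 ≤ 48 * K ^ 2 := by
    have e : K ^ 2 * (12 * Sm / q ^ 2) = (12 * K ^ 2 * Sm) / q ^ 2 := by ring
    rw [e, le_div_iff₀ (by positivity)] at h6
    have h8 : Sm * (q : ℝ) ^ 2 ≤ Sm * (48 * K ^ 2) := by linarith
    exact le_of_mul_le_mul_left h8 hSpos
  have h9 : (N : ℝ) ≤ q := by exact_mod_cast hqN
  have h10 : (1 : ℝ) ≤ N := by exact_mod_cast hN1
  nlinarith

end H31.ST
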