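import Pool.Agent.H31.ST.Targets

/-!
# MP_0b97f5_mp : module WIN2
-/

noncomputable section

namespace H31.ST

namespace WINaux

/-- the potential as a difference of floors -/
theorem pot_eq (lam α ω : ℝ) (h0 : 0 < α) (h1 : α < 1) (n : ℤ) :
    pot lam α ω n = lam * ((⌊((n + 1 : ℤ) : ℝ) * α + ω⌋ - ⌊(n : ℝ) * α + ω⌋ : ℤ) : ℝ) := by
  have e : ((n + 1 : ℤ) : ℝ) * α + ω = ((n : ℝ) * α + ω) + α := by push_cast; ring
  rw [e, pot]
  set x := (n : ℝ) * α + ω with hx
  have hf0 := Int.fract_nonneg x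
  have hf1 := Int.fract_lt_one x
  have hxf : x = ⌊x⌋ + Int.fract x := (Int.floor_add_fract x).symm
  split_ifs with h
  · have : ⌊x + α⌋ = ⌊x⌋ + 1 := by
      rw [Int.floor_eq_iff]
      push_cast
      constructor <;> linarith
    rw [this]; push_cast; ring
  · push Not at h
    have : ⌊x + α⌋ = ⌊x⌋ := by
      rw [Int.floor_eq_iff]
      constructor <;> linarith
    rw [this]; push_cast; ring

theorem floor_win {α : ℝ} {p q : ℕ} (hq : 0 < q) (hc : Nat.Coprime p q) {x : ℝ} (hx0 : 0 ≤ x)
    (h1 : ((q : ℝ) - 1) * |α * q - p| + q * x < 1) (h2 : |α * q - p| + x < 1) (j : ℤ)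
    (hj : |j| ≤ q - 1 ∨ (|j| = q ∧ 0 ≤ (j : ℝ) * (α * q - p))) :
    ⌊(j : ℝ) * α + x⌋ = j * p / q := by
  have hqz : (0 : ℤ) < q := by exact_mod_cast hq
  have hqr : (0 : ℝ) < q := by exact_mod_cast hq
  set D := α * q - p with hD
  set m := j * p / q with hm
  set r := j * p % q with hr
  have hrm : (q : ℤ) * m + r = j * p := Int.mul_ediv_add_emod (j * p) q
  have hr0 : 0 ≤ r := Int.emod_nonneg _ hqz.ne'
  have hr1 : r + 1 ≤ q := Int.emod_lt_of_pos _ hqz
  have hr0' : (0 : ℝ) ≤ r := by exact_mod_cast hr0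
  have hr1' : (r : ℝ) + 1 ≤ q := by exact_mod_cast hr1
  have hrm' : (q : ℝ) * m + r = j * p := by exact_mod_cast hrm
  have key : ((j : ℝ) * α + x) * q = m * q + (r + j * D + q * x) := by
    rw [hD]
    linear_combination (-1 : ℝ) * hrm'
  have hqx : 0 ≤ (q : ℝ) * x := by positivity
  have hfin : 0 ≤ (r : ℝ) + j * D + q * x ∧ (r : ℝ) + j * D + q * x < q := by
    rcases hj with hj | ⟨hj, hjD⟩
    · have hjr : |(j : ℝ)| ≤ (q : ℝ) - 1 := by
        have : ((|j| : ℤ) : ℝ) ≤ ((q - 1 : ℤ) : ℝ) := by exact_mod_cast hj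
        push_cast at this
        exact this
      have hjD : |(j : ℝ) * D| ≤ ((q : ℝ) - 1) * |D| := by
        rw [abs_mul]
        exact mul_le_mul_of_nonneg_right hjr (abs_nonneg _)
      have hb := abs_le.1 hjD
      constructor
      · by_cases hj0 : j = 0
        · rw [hj0]; push_cast; nlinarith
        · have hr1 : 1 ≤ r := by
            by_contra hcon
            have hr00 : r = 0 := by omega
            have hdvd : (q : ℤ) ∣ j * p := Int.dvd_of_emod_eq_zero hr00
            have hcop : IsCoprime (q : ℤ) (p : ℤ) := by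
              rw [Nat.isCoprime_iff_coprime]; exact hc.symm
            have hdj : (q : ℤ) ∣ j := hcop.dvd_of_dvd_mul_right hdvd
            have := Int.le_of_dvd (abs_pos.2 hj0) ((dvd_abs _ _).2 hdj)
            omega
          have hr1r : (1 : ℝ) ≤ r := by exact_mod_cast hr1
          linarith
      · linarith
    · have hr00 : r = 0 := by
        rw [hr]
        apply Int.emod_eq_zero_of_dvd
        apply Dvd.dvd.mul_right
        have : (q : ℤ) ∣ |j| := by rw [hj]
        exact (dvd_abs _ _).1 this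
      have hjr : |(j : ℝ)| = (q : ℝ) := by
        have : ((|j| : ℤ) : ℝ) = ((q : ℤ) : ℝ) := by rw [hj]
        push_cast at this
        exact this
      have hjD' : (j : ℝ) * D = q * |D| := by
        rw [← abs_of_nonneg hjD, abs_mul, hjr]
      rw [hr00, hjD']
      push_cast
      constructor
      · have := abs_nonneg D
        positivity
      · have : (q : ℝ) * (|D| + x) < q * 1 := mul_lt_mul_of_pos_left h2 hqr
        linarith
  rw [Int.floor_eq_iff]
  constructor
  · have : (m : ℝ) * q ≤ ((j : ℝ) * α + x) * q := by rw [key]; linarith [hfin.1]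
    exact le_of_mul_le_mul_right this hqr
  · have : ((j : ℝ) * α + x) * q < ((m : ℝ) + 1) * q := by rw [key]; linarith [hfin.2]
    exact lt_of_mul_lt_mul_right this hqr.le

/-- density of the orbit of an irrational rotation -/
theorem exists_orbit {α : ℝ} (hα : Irrational α) (ω ε : ℝ) (hε : 0 < ε) :
    ∃ k n : ℤ, 0 < (k : ℝ) * α + ω + n ∧ (k : ℝ) * α + ω + n < ε := by
  have hd : Dense (AddSubgroup.closure {α, 1} : Set ℝ) := by
    rw [dense_addSubgroupClosure_pair_iff]
    simpa using hα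
  obtain ⟨z, hz, hz1⟩ := hd.exists_mem_open (isOpen_Ioo (a := -ω) (b := -ω + ε))
    ⟨-ω + ε / 2, by constructor <;> linarith⟩
  rw [SetLike.mem_coe, AddSubgroup.mem_closure_pair] at hz
  obtain ⟨k, n, rfl⟩ := hz
  refine ⟨k, n, ?_, ?_⟩
  · have := hz1.1
    simp only [zsmul_eq_mul, mul_one] at this
    linarith
  · have := hz1.2
    simp only [zsmul_eq_mul, mul_one] at this
    linarith

end WINaux

open WINaux in
theorem win2 : T_WIN2 := by
  intro lam α ω hα hirr p q hq hc happ
  have hqr : (0 : ℝ) < q := by exact_mod_cast hq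
  have hq1 : (1 : ℝ) ≤ q := by exact_mod_cast hq
  set D := α * q - p with hD
  have hD0 : 0 ≤ |D| := abs_nonneg _
  have hDq : |D| < 1 := by nlinarith
  have he1 : 0 < (1 - ((q : ℝ) - 1) * |D|) / q := by
    apply div_pos _ hqr
    nlinarith
  have he2 : 0 < 1 - |D| := by linarith
  obtain ⟨k, n, hkn0, hkn1⟩ := exists_orbit hirr ω (min ((1 - ((q : ℝ) - 1) * |D|) / q) (1 - |D|))
    (lt_min he1 he2)
  set x := (k : ℝ) * α + ω + n with hx
  have hx1 : ((q : ℝ) - 1) * |D| + q * x < 1 := by
    have h := lt_of_lt_of_le hkn1 (min_le_left _ _)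
    rw [lt_div_iff₀ hqr] at h
    linarith
  have hx2 : |D| + x < 1 := by
    have h := lt_of_lt_of_le hkn1 (min_le_right _ _)
    linarith
  -- floors of the shifted orbit
  have hfl : ∀ j : ℤ, (|j| ≤ q - 1 ∨ (|j| = q ∧ 0 ≤ (j : ℝ) * D)) →
      ⌊((k + j : ℤ) : ℝ) * α + ω⌋ = j * p / q - n := by
    intro j hj
    have h := floor_win (α := α) hq hc hkn0.le hx1 hx2 j hj
    have e : ((k + j : ℤ) : ℝ) * α + ω = ((j : ℝ) * α + x) - (n : ℤ) := by
      rw [hx]; push_cast; ring
    rw [e, Int.floor_sub_intCast, h]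
  have hpp : ∀ j : ℤ, (|j| ≤ q - 1 ∨ (|j| = q ∧ 0 ≤ (j : ℝ) * D)) →
      (|j + 1| ≤ q - 1 ∨ (|j + 1| = q ∧ 0 ≤ ((j + 1 : ℤ) : ℝ) * D)) →
      pot lam α ω (k + j) = pper lam p q j := by
    intro j h1 h2
    rw [pot_eq lam α ω hα.1 hα.2, hfl j h1]
    have e : (k + j + 1 : ℤ) = k + (j + 1) := by ring
    rw [e, hfl (j + 1) h2, pper]
    congr 2
    ring
  have hqz : (0 : ℤ) < q := by exact_mod_cast hq
  rcases le_total 0 D with hDs | hDs
  · refine ⟨k, -((q : ℤ) - 1), fun j hj0 hj1 => hpp j ?_ ?_⟩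
    · left
      rw [abs_le]; constructor <;> linarith
    · by_cases hlast : j + 1 = q
      · right
        rw [hlast]
        refine ⟨abs_of_pos hqz, ?_⟩
        push_cast
        exact mul_nonneg hqr.le hDs
      · left
        rw [abs_le]
        constructor
        · linarith
        · omega
  · refine ⟨k, -(q : ℤ), fun j hj0 hj1 => hpp j ?_ ?_⟩
    · by_cases hfirst : j = -(q : ℤ)
      · right
        rw [hfirst]
        refine ⟨by rw [abs_neg, abs_of_pos hqz], ?_⟩
        push_cast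
        nlinarith
      · left
        rw [abs_le]
        constructor
        · omega
        · linarith
    · left
      rw [abs_le]
      constructor
      · linarith
      · linarith

end H31.ST
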